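import Mathlib
import Pool.Agent.R650.UT

/-!
# MP_34ced1: no undistorted embedding of the five-dimensional Heisenberg group into a `UT_n(ℤ)`
-/

set_option autoImplicit false

namespace Pool.Agent.Results.MP_34ced1_al.HeisenbergDistorted

open Pool.Agent.R650.UT

/-- The five-dimensional integer Heisenberg group is a τ-group (finitely generated, torsion-free,
nilpotent), and the image of every injective homomorphism from it to any `UT_n(ℤ)` is distorted. -/
theorem result :
    Group.FG Heis ∧ (∀ g : Heis, g ≠ 1 → ∀ k : ℕ, 0 < k → g ^ k ≠ 1) ∧ Group.IsNilpotent Heis ∧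
      ∀ (n : ℕ) (φ : Heis →* UT n), Function.Injective φ → ¬ IsUndistorted φ :=
  ⟨Heis.fg, Heis.torsionFree, Heis.isNilpotent, fun _ φ _ => not_isUndistorted φ⟩

end Pool.Agent.Results.MP_34ced1_al.HeisenbergDistorted
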